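import Mathlib

namespace Pool.Agent.Results.MP_df7fe8_co.LatticeCounterexample

inductive L : Type
  | lo (n : ℕ)
  | mid (n : ℕ) (β : ℕ → ℕ) (i : ℕ) (h : i < β n)
  | hi (T : Finset (ℕ → ℕ))

def le : L → L → Prop
  | .lo n, .lo m => m ≤ n
  | .lo n, .mid m _ _ _ => m ≤ n
  | .lo _, .hi _ => True
  | .mid n β i _, .mid m γ j _ => n = m ∧ β = γ ∧ i ≤ j
  | .mid _ β _ _, .hi T => β ∈ T
  | .hi T, .hi S => T ⊆ S
  | _, _ => False

instance : PartialOrder L where
  le := le
  le_refl a := by cases a <;> simp [le]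
  le_trans a b c h1 h2 := by
    cases a <;> cases b <;> cases c <;> simp only [le] at h1 h2 ⊢ <;> grind
  le_antisymm a b h1 h2 := by
    cases a <;> cases b <;> simp only [le] at h1 h2 ⊢ <;> grind

theorem le_def (a b : L) : a ≤ b ↔ le a b := Iff.rfl

open Classical in
noncomputable def sup : L → L → L
  | .lo n, .lo m => .lo (min n m)
  | .lo n, .mid m γ j h => if m ≤ n then .mid m γ j h else .hi {γ}
  | .lo _, .hi T => .hi T
  | .mid m γ j h, .lo n => if m ≤ n then .mid m γ j h else .hi {γ}
  | .mid n β i h, .mid m γ j h' =>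
      if n = m ∧ β = γ then (if i ≤ j then .mid m γ j h' else .mid n β i h) else .hi {β, γ}
  | .mid _ β _ _, .hi T => .hi (insert β T)
  | .hi T, .lo _ => .hi T
  | .hi T, .mid _ β _ _ => .hi (insert β T)
  | .hi T, .hi S => .hi (T ∪ S)

open Classical in
noncomputable def inf : L → L → L
  | .lo n, .lo m => .lo (max n m)
  | .lo n, .mid m _ _ _ => .lo (max n m)
  | .lo n, .hi _ => .lo n
  | .mid m _ _ _, .lo n => .lo (max n m)
  | .mid n β i h, .mid m γ j h' =>
      if n = m ∧ β = γ then (if i ≤ j then .mid n β i h else .mid m γ j h') else .lo (max n m)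
  | .mid n β i h, .hi T => if β ∈ T then .mid n β i h else .lo n
  | .hi _, .lo n => .lo n
  | .hi T, .mid n β i h => if β ∈ T then .mid n β i h else .lo n
  | .hi T, .hi S => .hi (T ∩ S)

open Classical in
noncomputable def lat : Lattice L where
  sup := sup
  inf := inf
  le_sup_left a b := by
    cases a <;> cases b <;> simp only [le_def, sup] <;> (try split_ifs) <;> simp only [le] <;> grind
  le_sup_right a b := by
    cases a <;> cases b <;> simp only [le_def, sup] <;> (try split_ifs) <;> simp only [le] <;> grind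
  sup_le a b c h1 h2 := by
    cases a <;> cases b <;> cases c <;> simp only [le_def, sup, le] at h1 h2 ⊢ <;>
      (try split_ifs) <;> (try simp only [le]) <;> grind
  inf_le_left a b := by
    cases a <;> cases b <;> simp only [le_def, inf] <;> (try split_ifs) <;> simp only [le] <;> grind
  inf_le_right a b := by
    cases a <;> cases b <;> simp only [le_def, inf] <;> (try split_ifs) <;> simp only [le] <;> grind
  le_inf a b c h1 h2 := by
    cases a <;> cases b <;> cases c <;> simp only [le_def, inf, le] at h1 h2 ⊢ <;>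
      (try split_ifs) <;> (try simp only [le]) <;> grind

theorem fin_lo_hi (n : ℕ) (T : Finset (ℕ → ℕ)) : (Set.Icc (L.lo n) (L.hi T)).Finite := by
  have h1 : (L.lo '' Set.Iic n).Finite := (Set.finite_Iic n).image _
  have h2 : (L.hi '' {S | S ⊆ T}).Finite := by
    refine Set.Finite.image _ ?_
    refine (T.powerset.finite_toSet).subset (fun S hS => ?_)
    simpa using hS
  have h3 : (⋃ m ∈ Set.Iic n, ⋃ β ∈ (T : Set (ℕ → ℕ)),
      Set.range (fun i : Fin (β m) => L.mid m β i.val i.2)).Finite :=
    (Set.finite_Iic n).biUnion (fun m _ => T.finite_toSet.biUnion (fun β _ => Set.finite_range _))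
  refine ((h1.union h2).union h3).subset ?_
  rintro (m | ⟨m, β, i, h⟩ | S) ⟨k1, k2⟩
  · exact Or.inl (Or.inl ⟨m, k1, rfl⟩)
  · refine Or.inr ?_
    simp only [Set.mem_iUnion]
    exact ⟨m, k1, β, k2, ⟨i, h⟩, rfl⟩
  · exact Or.inl (Or.inr ⟨S, k2, rfl⟩)

theorem fin_Icc (x y : L) : (Set.Icc x y).Finite := by
  have h1 : ∃ n, L.lo n ≤ x := by
    cases x with
    | lo n => exact ⟨n, le_rfl⟩
    | mid n β i h => exact ⟨n, le_refl n⟩
    | hi T => exact ⟨0, trivial⟩
  have h2 : ∃ T, y ≤ L.hi T := by
    cases y with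
    | lo n => exact ⟨∅, trivial⟩
    | mid n β i h => exact ⟨{β}, Finset.mem_singleton_self β⟩
    | hi T => exact ⟨T, le_rfl⟩
  obtain ⟨n, hn⟩ := h1
  obtain ⟨T, hT⟩ := h2
  exact (fin_lo_hi n T).subset (Set.Icc_subset_Icc hn hT)

theorem no_map (f : L → ℤ) (hf : StrictMono f) : False := by
  have key : ∀ n β, f (.lo n) + β n < f (.hi {β}) := by
    intro n β
    have h1 : ∀ i (h : i < β n), f (.lo n) + i < f (.mid n β i h) := by
      intro i
      induction i with
      | zero =>
        intro h
        simpa using hf (lt_of_le_of_ne (show L.lo n ≤ L.mid n β 0 h from le_refl n) (by simp))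
      | succ i ih =>
        intro h
        have h2 := ih (by omega)
        have h3 := hf (lt_of_le_of_ne (show L.mid n β i (by omega) ≤ L.mid n β (i + 1) h from
          ⟨rfl, rfl, by omega⟩) (by simp))
        push_cast
        omega
    rcases Nat.eq_zero_or_pos (β n) with h | h
    · simpa [h] using hf (lt_of_le_of_ne (show L.lo n ≤ L.hi {β} from trivial) (by simp))
    · have h2 := h1 (β n - 1) (by omega)
      have h3 := hf (lt_of_le_of_ne (show L.mid n β (β n - 1) (by omega) ≤ L.hi {β} from
        Finset.mem_singleton_self β) (by simp))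
      omega
  let β : ℕ → ℕ := fun n => (f (.lo n)).natAbs + n
  have := key (f (.hi {β})).natAbs β
  simp only [β] at this
  omega

theorem result : ∃ (L : Type) (_ : Lattice L),
    (∀ x y : L, x ≤ y → ∃ n : ℕ, ∀ C : Set L, IsChain (· ≤ ·) C → C ⊆ Set.Icc x y →
      C.encard ≤ n) ∧ ¬ ∃ f : L → ℤ, StrictMono f := by
  refine ⟨L, lat, fun x y _ => ?_, fun ⟨f, hf⟩ => no_map f hf⟩
  obtain ⟨n, hn⟩ := (fin_Icc x y).exists_encard_eq_coe
  exact ⟨n, fun C _ hC => (Set.encard_le_encard hC).trans hn.le⟩

end Pool.Agent.Results.MP_df7fe8_co.LatticeCounterexample
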